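import Pool.Agent.Lib.MP_b9cab9_al.Kronecker

set_option autoImplicit false

open Pool.Agent.Lib.MP_b9cab9_al

universe u v w

/-- Negative answer to Q1 of MP_b9cab9_al. For every `m ≥ 2` no weak `M`-structure (hence no
`M`-structure) corresponds to the diagram with two vertices and a double edge and to `m`: there is
no weak `M`-structure on a space `L` with `A ≅ End(V)`, `B ≅ End(W)`, `dim V = dim W = m` and
`L ≅ Hom(V, W)^2` as a module over both algebras. -/
theorem Pool.Agent.Results.MP_b9cab9_al.KroneckerNonexistence.result
    {A : Type u} {B : Type v} {L : Type w}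
    [Ring A] [Algebra ℂ A] [Ring B] [Algebra ℂ B] [AddCommGroup L] [Module ℂ L]
    (S : WeakMStructure A B L) (m : ℕ) (hm : 2 ≤ m) :
    ¬ S.HasMultiplicities (r := 1) (s := 1) (fun _ _ => 2) (fun _ => m) (fun _ => m) :=
  no_kronecker S m hm
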